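import Pool.Agent.H961C1.ProgS

set_option autoImplicit false

/-!
# Runs of consecutive primes, all starting long almost prime Cunningham chains, in narrow progressions

`T s x = 2 x + s`; a Cunningham chain of the first (second) kind is an orbit of `T 1` (of `T (-1)`) of
primes.
-/

namespace Pool.Agent.Results.MP_c183ae_nt.ExactWindows

open Filter Polynomial Finset

/-- the map `x ↦ 2 x + s` of the chains: `s = 1` first kind, `s = -1` second kind -/
def T (s x : ℤ) : ℤ := 2 * x + s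

/-- `x` is a positive integer with at most `R` prime factors, counted with multiplicity, all of them at
least `y` -/
def AlmostPrime (R : ℕ) (y : ℝ) (x : ℤ) : Prop :=
  0 < x ∧ x.natAbs.primeFactorsList.length ≤ R ∧ ∀ l : ℕ, l.Prime → (l : ℤ) ∣ x → y ≤ l

/-- the product of the first `k` terms of the orbit -/
noncomputable def F (s : ℤ) (k : ℕ) : ℤ[X] := ∏ j ∈ range k, (C (2 ^ j) * (X + C s) - C s)

lemma iter (s x : ℤ) (j : ℕ) : (T s)^[j] x = 2 ^ j * (x + s) - s := by
  induction j with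
  | zero => simp
  | succ j ih =>
    rw [Function.iterate_succ_apply', ih]
    unfold T
    ring

lemma F_eval (s : ℤ) (k : ℕ) (x : ℤ) : (F s k).eval x = ∏ j ∈ range k, (T s)^[j] x := by
  unfold F
  rw [eval_prod]
  apply prod_congr rfl
  intro j _
  rw [iter]
  simp

lemma iter_ne (s : ℤ) (hs : s = 1 ∨ s = -1) (x : ℤ) (hx : x ≠ 0) (j : ℕ) : (T s)^[j] x ≠ 0 := by
  rw [iter]
  rcases j with _ | j
  · simpa using hx
  · intro h
    have h1 : 2 * (2 ^ j * (x + s)) = s := by
      rw [pow_succ] at h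
      linarith
    rcases hs with rfl | rfl <;> omega

lemma iter_pos (s : ℤ) (hs : s = 1 ∨ s = -1) (x : ℤ) (hx : 1 ≤ x) (j : ℕ) : 0 < (T s)^[j] x := by
  induction j with
  | zero =>
    show 0 < x
    omega
  | succ j ih =>
    rw [Function.iterate_succ_apply']
    show 0 < 2 * ((T s)^[j] x) + s
    rcases hs with rfl | rfl <;> omega

/-- **Almost prime Cunningham chains started by all the primes of a window, in narrow progressions.**
Let `s = ±1`, `T x = 2 x + s`, `k, m ≥ 0`, `u ≥ 1`, let `q` be squarefree and `e` such that no prime divisor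
of `q` divides `e` or one of `T^j e`, `j < k`. There are `K, R` and `δ > 0` such that for EVERY finite set
`S` of at least `K` natural numbers, every `L` and every `w ≥ 1` there is `B` such that for all large `N`
and every class `c` modulo `u` there are `σ ∈ S`, a set `G` with at least `m` elements, `0 ∈ G` and
`σ + G ⊆ S`, and `a`, `1 ≤ d ≤ (log N) ^ B`, `w ∣ d`, such that for every `t < L` the window
`[a + t d, a + t d + max S - σ]` is in `(N, 2 N]`, its primes are exactly the numbers `p = a + t d + g`,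
`g ∈ G`, the first of them, `a + t d`, is the `(j + 1)`-th prime for some `j ≡ c` modulo `u`, and for each
of them `p ≡ e` modulo `q` and the `k` terms `T^j p`, `j < k`, of the chain starting at `p` have at most
`R` prime factors each, all of them at least `N ^ δ`. -/
theorem result (s : ℤ) (hs : s = 1 ∨ s = -1) (k m u q e : ℕ) (hu : 1 ≤ u) (hq : Squarefree q)
    (he : ∀ l : ℕ, l.Prime → l ∣ q → ¬ (l : ℤ) ∣ (e : ℤ) ∧ ∀ j < k, ¬ (l : ℤ) ∣ (T s)^[j] (e : ℤ)) :
    ∃ (K R : ℕ) (δ : ℝ), 0 < δ ∧ ∀ S : Finset ℕ, K ≤ S.card → ∀ L w : ℕ, 1 ≤ w →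
      ∃ B : ℕ, ∀ᶠ N : ℕ in atTop, ∀ c : ℕ, ∃ (σ : ℕ) (G : Finset ℕ), σ ∈ S ∧ 0 ∈ G ∧ m ≤ G.card ∧
        (∀ g ∈ G, σ + g ∈ S) ∧ ∃ a d : ℕ, w ∣ d ∧ 1 ≤ d ∧ (d : ℝ) ≤ Real.log N ^ B ∧
        ∀ t < L, N < a + t * d ∧ a + t * d + (S.sup id - σ) ≤ 2 * N ∧
          (∀ y ≤ S.sup id - σ, (a + t * d + y).Prime ↔ y ∈ G) ∧
          (∃ j : ℕ, j ≡ c [MOD u] ∧ Nat.nth Nat.Prime j = a + t * d) ∧
          ∀ g ∈ G, a + t * d + g ≡ e [MOD q] ∧
            ∀ j < k, AlmostPrime R ((N : ℝ) ^ δ) ((T s)^[j] ((a + t * d + g : ℕ) : ℤ)) := by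
  have hs1 : s * s = 1 := by rcases hs with rfl | rfl <;> norm_num
  obtain ⟨K, R, δ, hδ, h⟩ := Pool.Agent.H961C1.windows (F s k)
    (fun x hx => by
      rw [F_eval, prod_ne_zero_iff]
      intro j _
      exact iter_ne s hs x hx j)
    (fun p hp => by
      refine ⟨-s, ?_⟩
      rw [F_eval]
      intro hd
      have h1 : (p : ℤ) ∣ 1 := by
        have hp' := Nat.prime_iff_prime_int.1 hp
        have h0 : ∀ z : ℤ, z = s ∨ z = -s → (p : ℤ) ∣ z → (p : ℤ) ∣ 1 := by
          intro z hz hzd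
          have h2 : (p : ℤ) ∣ z * z := hzd.mul_left z
          have h3 : z * z = 1 := by rcases hz with rfl | rfl <;> linarith
          rwa [h3] at h2
        rcases hp'.dvd_or_dvd hd with h2 | h2
        · exact h0 _ (Or.inr rfl) h2
        · obtain ⟨j, _, hj⟩ := (hp'.dvd_finsetProd_iff _).1 h2
          rw [iter] at hj
          have h3 : (2 : ℤ) ^ j * (-s + s) - s = -s := by ring
          rw [h3] at hj
          exact h0 _ (Or.inr rfl) hj
      have h2 := Int.le_of_dvd one_pos h1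
      have h3 := hp.two_le
      omega)
    q e hq (fun p hp hpq hd => by
      obtain ⟨h1, h2⟩ := he p hp hpq
      have hp' := Nat.prime_iff_prime_int.1 hp
      rcases hp'.dvd_or_dvd hd with h3 | h3
      · exact h1 h3
      · rw [F_eval] at h3
        obtain ⟨j, hj, hjd⟩ := (hp'.dvd_finsetProd_iff _).1 h3
        exact h2 j (mem_range.1 hj) hjd) u m hu
  refine ⟨K, R, δ, hδ, fun S hS L w hw => ?_⟩
  obtain ⟨B, hB⟩ := h S hS L w hw
  refine ⟨B, ?_⟩
  filter_upwards [hB] with N hN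
  intro c
  obtain ⟨σ, G, hσ, h0, hGm, hGS, a, d, hwd, h1, h2, h3⟩ := hN c
  refine ⟨σ, G, hσ, h0, hGm, hGS, a, d, hwd, h1, h2, fun t ht => ?_⟩
  obtain ⟨g1, g2, g3, g4, g5⟩ := h3 t ht
  refine ⟨g1, g2, g3, g4, fun y hy => ?_⟩
  obtain ⟨f1, f2⟩ := g5 y hy
  refine ⟨f1, fun j hj => ?_⟩
  have h5 := Pool.Agent.R498.MP.AP_dvd R _ ((T s)^[j] ((a + t * d + y : ℕ) : ℤ)) _ f2 (by
    rw [F_eval]
    exact dvd_prod_of_mem _ (mem_range.2 hj))
  refine ⟨iter_pos s hs _ ?_ j, h5.2.1, h5.2.2⟩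
  have : 1 ≤ a + t * d + y := by omega
  exact_mod_cast this

end Pool.Agent.Results.MP_c183ae_nt.ExactWindows
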